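import Pool.Agent.Helper17.CR.Stmts

/-!
# The p-parts of k + s and k - s
-/

set_option autoImplicit false

namespace Pool.Agent.Helper7.CR

open Pool.Agent.Helper17.CR

theorem ppart_aux (lam k s p : ℕ) (hk : (k : ℤ) = (s : ℤ) ^ 2 + lam) (t : ℕ)
    (h1 : ((p : ℤ) ^ t) ∣ (k : ℤ) + s) (h2 : ((p : ℤ) ^ t) ∣ (k : ℤ) - s) : p ^ t ∣ 2 * lam := by
  have h3 : ((p : ℤ) ^ t) ∣ ((k : ℤ) + s) + (k - s) - s * (((k : ℤ) + s) - (k - s)) :=
    dvd_sub (dvd_add h1 h2) (Dvd.dvd.mul_left (dvd_sub h1 h2) _)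
  have h4 : ((k : ℤ) + s) + (k - s) - s * (((k : ℤ) + s) - (k - s)) = 2 * lam := by
    rw [hk]
    ring
  rw [h4] at h3
  exact_mod_cast h3

/-- The p-parts of k + s and k - s. -/
theorem st_PPART : ST_PPART := by
  intro lam k s p _ _ hk
  by_contra hcon
  push Not at hcon
  obtain ⟨⟨i, hi1, hi2⟩, j, hj1, hj2⟩ := hcon
  rcases le_total i j with h | h
  · exact hi2 (ppart_aux lam k s p hk i hi1 ((pow_dvd_pow _ h).trans hj1))
  · exact hj2 (ppart_aux lam k s p hk j ((pow_dvd_pow _ h).trans hi1) hj1)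

end Pool.Agent.Helper7.CR
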